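import Pool.Agent.Helper56.RZ.GoalsC
import Pool.Agent.Helper95.RZ.K1

/-!
# Project RZ5: the chart and the splitting in the chart, Lipschitz bounds
-/

set_option autoImplicit false

open Set Filter Topology MeasureTheory

open scoped ContDiff

namespace Pool.Agent.Helper30.RZ

open Pool.Agent.Helper56.RZ
open Pool.Agent.Helper95.RZ (k1_norm)

theorem chl {N K : ℕ} {M : Set (E K)} (c : Chart N K M) {P : Fin 3 → E K → End K}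
    (hP : ∀ i, ContinuousOn (P i) M) {z0 : E N} (hz0 : z0 ∈ c.V) :
    ∃ q L : ℝ, 0 < q ∧ 1 ≤ L ∧ Metric.closedBall z0 q ⊆ c.V ∧
      ∀ z ∈ Metric.closedBall z0 q, ∀ z' ∈ Metric.closedBall z0 q,
        ‖c.ψ z - c.ψ z'‖ ≤ L * ‖z - z'‖ ∧ ∀ i,
        ‖phat c P i z - phat c P i z'‖ ≤
          L * (‖z - z'‖ + ‖P i (c.ψ z) - P i (c.ψ z')‖) := by
  have hmem : ∀ z ∈ c.V, c.ψ z ∈ M := fun z hz => (c.mapsψ z hz).1
  have hψ : ContDiffAt ℝ ∞ c.ψ z0 := c.smoothψ.contDiffAt (c.openV.mem_nhds hz0)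
  have hφ : ContDiffAt ℝ ∞ c.φ (c.ψ z0) :=
    c.smoothφ.contDiffAt (c.openW.mem_nhds (c.mapsψ z0 hz0).2)
  have le2 : (1 : WithTop ℕ∞) + 1 ≤ ∞ := by
    have h : (((2 : ℕ∞)) : WithTop ℕ∞) ≤ ((⊤ : ℕ∞) : WithTop ℕ∞) := WithTop.coe_le_coe.mpr le_top
    exact (show (1 : WithTop ℕ∞) + 1 = ((2 : ℕ∞) : WithTop ℕ∞) by norm_num) ▸ h
  have le1 : (1 : WithTop ℕ∞) ≤ ∞ := by simp
  have hu : ContDiffAt ℝ 1 (fderiv ℝ c.ψ) z0 := hψ.fderiv_right le2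
  have hv : ContDiffAt ℝ 1 (fun z => fderiv ℝ c.φ (c.ψ z)) z0 :=
    (hφ.fderiv_right le2).comp z0 (hψ.of_le le1)
  -- continuity of the projections along the chart
  have hPc : ∀ i, ContinuousAt (fun z => P i (c.ψ z)) z0 := by
    intro i
    have h1 : ContinuousWithinAt (fun z => P i (c.ψ z)) c.V z0 :=
      ((hP i) (c.ψ z0) (hmem z0 hz0)).comp hψ.continuousAt.continuousWithinAt
        (fun z hz => hmem z hz)
    exact h1.continuousAt (c.openV.mem_nhds hz0)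
  obtain ⟨Lψ, t1, ht1, hL1⟩ := (hψ.of_le le1).exists_lipschitzOnWith
  obtain ⟨Lu, t2, ht2, hL2⟩ := hu.exists_lipschitzOnWith
  obtain ⟨Lv, t3, ht3, hL3⟩ := hv.exists_lipschitzOnWith
  obtain ⟨B, hBdef⟩ : ∃ B : ℝ, B = ∑ i, ‖P i (c.ψ z0)‖ + 1 := ⟨_, rfl⟩
  have B0 : 0 ≤ B := by rw [hBdef]; positivity
  have ht4 : {z | ∀ i, ‖P i (c.ψ z)‖ ≤ B} ∈ 𝓝 z0 := by
    have h1 : ∀ i, ∀ᶠ z in 𝓝 z0, ‖P i (c.ψ z)‖ < B := by
      intro i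
      refine (hPc i).norm.eventually_lt continuousAt_const ?_
      have h2 : ‖P i (c.ψ z0)‖ ≤ ∑ i, ‖P i (c.ψ z0)‖ :=
        Finset.single_le_sum (f := fun i => ‖P i (c.ψ z0)‖) (fun _ _ => norm_nonneg _)
          (Finset.mem_univ i)
      rw [hBdef]
      linarith
    have h3 := eventually_all.mpr h1
    exact h3.mono fun z hz i => (hz i).le
  have hall : c.V ∩ t1 ∩ t2 ∩ t3 ∩ {z | ∀ i, ‖P i (c.ψ z)‖ ≤ B} ∈ 𝓝 z0 :=
    inter_mem (inter_mem (inter_mem (inter_mem (c.openV.mem_nhds hz0) ht1) ht2) ht3) ht4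
  obtain ⟨q, q0, hq⟩ := Metric.nhds_basis_closedBall.mem_iff.mp hall
  obtain ⟨b, hbdef⟩ : ∃ b : ℝ,
    b = ‖fderiv ℝ c.ψ z0‖ + Lu * q + (‖fderiv ℝ c.φ (c.ψ z0)‖ + Lv * q) := ⟨_, rfl⟩
  have b0 : 0 ≤ b := by rw [hbdef]; positivity
  have hz0b : z0 ∈ Metric.closedBall z0 q := Metric.mem_closedBall_self q0.le
  have hψL : ∀ z ∈ Metric.closedBall z0 q, ∀ z' ∈ Metric.closedBall z0 q,
      ‖c.ψ z - c.ψ z'‖ ≤ Lψ * ‖z - z'‖ := by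
    intro z hz z' hz'
    have := hL1.dist_le_mul z (hq hz).1.1.1.2 z' (hq hz').1.1.1.2
    rwa [dist_eq_norm, dist_eq_norm] at this
  have hUL : ∀ z ∈ Metric.closedBall z0 q, ∀ z' ∈ Metric.closedBall z0 q,
      ‖fderiv ℝ c.ψ z - fderiv ℝ c.ψ z'‖ ≤ Lu * ‖z - z'‖ := by
    intro z hz z' hz'
    have := hL2.dist_le_mul z (hq hz).1.1.2 z' (hq hz').1.1.2
    rwa [dist_eq_norm, dist_eq_norm] at this
  have hVL : ∀ z ∈ Metric.closedBall z0 q, ∀ z' ∈ Metric.closedBall z0 q,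
      ‖fderiv ℝ c.φ (c.ψ z) - fderiv ℝ c.φ (c.ψ z')‖ ≤ Lv * ‖z - z'‖ := by
    intro z hz z' hz'
    have := hL3.dist_le_mul z (hq hz).1.2 z' (hq hz').1.2
    rwa [dist_eq_norm, dist_eq_norm] at this
  have hdq : ∀ z ∈ Metric.closedBall z0 q, ‖z - z0‖ ≤ q := by
    intro z hz
    rw [← dist_eq_norm]
    exact Metric.mem_closedBall.mp hz
  have hUB : ∀ z ∈ Metric.closedBall z0 q, ‖fderiv ℝ c.ψ z‖ ≤ b := by
    intro z hz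
    have h1 := hUL z hz z0 hz0b
    have h2 : (Lu : ℝ) * ‖z - z0‖ ≤ Lu * q :=
      mul_le_mul_of_nonneg_left (hdq z hz) Lu.coe_nonneg
    have h4 := norm_sub_norm_le (fderiv ℝ c.ψ z) (fderiv ℝ c.ψ z0)
    have h5 := norm_nonneg (fderiv ℝ c.φ (c.ψ z0))
    have h6 : 0 ≤ (Lv : ℝ) * q := mul_nonneg Lv.coe_nonneg q0.le
    rw [hbdef]
    linarith
  have hVB : ∀ z ∈ Metric.closedBall z0 q, ‖fderiv ℝ c.φ (c.ψ z)‖ ≤ b := by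
    intro z hz
    have h1 := hVL z hz z0 hz0b
    have h2 : (Lv : ℝ) * ‖z - z0‖ ≤ Lv * q :=
      mul_le_mul_of_nonneg_left (hdq z hz) Lv.coe_nonneg
    have h4 := norm_sub_norm_le (fderiv ℝ c.φ (c.ψ z)) (fderiv ℝ c.φ (c.ψ z0))
    have h5 := norm_nonneg (fderiv ℝ c.ψ z0)
    have h6 : 0 ≤ (Lu : ℝ) * q := mul_nonneg Lu.coe_nonneg q0.le
    rw [hbdef]
    linarith
  obtain ⟨D, hD⟩ : ∃ D : ℝ, D = Lv * (B * b) + b * (B * Lu) := ⟨_, rfl⟩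
  have D0 : 0 ≤ D := by rw [hD]; positivity
  refine ⟨q, 1 + Lψ + D + b * b, q0, ?_, fun z hz => (hq hz).1.1.1.1, fun z hz z' hz' =>
    ⟨?_, fun i => ?_⟩⟩
  · have := Lψ.coe_nonneg
    nlinarith
  · refine (hψL z hz z' hz').trans (mul_le_mul_of_nonneg_right ?_ (norm_nonneg _))
    nlinarith
  · have h1 := k1_norm (fderiv ℝ c.ψ z) (fderiv ℝ c.ψ z') (fderiv ℝ c.φ (c.ψ z))
      (fderiv ℝ c.φ (c.ψ z')) (P i (c.ψ z)) (P i (c.ψ z')) b0 B0 (hUB z hz) (hVB z' hz')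
      ((hq hz).2 i) ((hq hz').2 i) (hVL z hz z' hz') le_rfl (hUL z hz z' hz')
      (mul_nonneg Lv.coe_nonneg (norm_nonneg _)) (norm_nonneg _)
    change ‖(fderiv ℝ c.φ (c.ψ z)) ∘L (P i (c.ψ z)) ∘L (fderiv ℝ c.ψ z) -
      (fderiv ℝ c.φ (c.ψ z')) ∘L (P i (c.ψ z')) ∘L (fderiv ℝ c.ψ z')‖ ≤ _
    have hLψ := Lψ.coe_nonneg
    have h6 : (Lv : ℝ) * ‖z - z'‖ * (B * b) + b * (B * (Lu * ‖z - z'‖)) = D * ‖z - z'‖ := by
      rw [hD]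
      ring
    have h7 := norm_nonneg (z - z')
    have h8 := norm_nonneg (P i (c.ψ z) - P i (c.ψ z'))
    have h9 : 0 ≤ (1 + Lψ + b * b : ℝ) * ‖z - z'‖ := by positivity
    have h10 : 0 ≤ (1 + Lψ + D : ℝ) * ‖P i (c.ψ z) - P i (c.ψ z')‖ := by positivity
    calc _ ≤ _ := h1
      _ = D * ‖z - z'‖ + b * b * ‖P i (c.ψ z) - P i (c.ψ z')‖ := by rw [← h6]; ring
      _ ≤ (1 + Lψ + D + b * b) * (‖z - z'‖ + ‖P i (c.ψ z) - P i (c.ψ z')‖) := by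
          linarith

end Pool.Agent.Helper30.RZ
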