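import Pool.Agent.Helper56.RZ.FinC5
import Pool.Agent.Helper56.RZ.FinM
import Pool.Agent.Helper30.RZ.EX5

/-!
# Project RZ5: the fifth theorem, from the core to the statement
-/

set_option autoImplicit false

open Set Filter Topology MeasureTheory

open scoped ContDiff

namespace Pool.Agent.Helper30.RZ

open Pool.Agent.Helper56.RZ

/-- the homological bound with weights -/
def StmtHB5 : Prop := ∀ (N K r : ℕ) (M : Set (E K)) (m : Measure (E K)) (f f' : E K → E K)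
  (P : Fin 3 → E K → End K) (C : Coc M K) (ε : ℝ), SmoothVolume N K M m → IsDiffeo 1 M f f' →
  Preserves M m f → PH M f f' P → Rep C f f' → 0 < ε →
  (∀ (h h' : E K → E K) (Q : Fin 3 → E K → End K), IsDiffeo ∞ M h h' →
      Preserves M m h → Small r ε M h → Small r ε M h' → PH M (f ∘ h) (h' ∘ f') Q →
      (∀ x ∈ M, ∀ i, ‖Q i x - P i x‖ ≤ ε) → CInt M m (f ∘ h) Q = 0) →
  ∀ (c : Chart N K M), (∀ A : Set (E N), MeasurableSet A → A ⊆ c.V → m (c.ψ '' A) = volume A) →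
  ∀ (p : Fin 3 → End N), Proj3 p → ∀ (d : Tw N p), IsCompact {s : E N | d.q s ≤ 1} →
  ∀ z0 ∈ c.V, ∃ l A t1 ρ1 r1 : ℝ, 0 < l ∧ l < 1 ∧ 0 ≤ A ∧ 0 < t1 ∧ t1 ≤ 1 ∧ 0 < ρ1 ∧ 0 < r1 ∧
    ∀ y ∈ Metric.closedBall z0 r1, ∀ ρ t κ0 : ℝ, 0 < ρ → ρ ≤ ρ1 → 0 < t → t ≤ t1 → 0 ≤ κ0 →
    κ0 ≤ t1 → Small r ε M (hMa c d th2 y ρ t) → Small r ε M (hMa c d th2 y ρ (-t)) →
    (∀ s, d.q s ≤ 1 → ∀ i, ‖phat c P i (y + ρ • d.Ha th2 t s) - phat c P i (y + ρ • s)‖ ≤ κ0) →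
    ∀ (N0 : ℕ) (w : ℕ → ℝ), (∀ n, 0 ≤ w n) →
    (∀ n < N0, ∀ x : M, (x : E K) ∈ Bs c d y ρ → f^[n + 1] x ∈ Bs c d y ρ →
      DP C (fun i (x : M) => P i x) (n + 1) x ≤ w n) →
    |∫ s in {s | d.q s ≤ 1}, Fl d (phat c P) ρ t y s| ≤
      (ρ ^ N)⁻¹ * (A * (κ0 + t) ^ 2 * (4 * ∑ n ∈ Finset.range N0,
      w n * (m {x | x ∈ Bs c d y ρ ∧ f^[n + 1] x ∈ Bs c d y ρ}).toReal +
        4 * (l ^ N0 * (m (Bs c d y ρ)).toReal)))

/-- interpolation of the two bounds for the domination -/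
theorem interp {D a b δ : ℝ} (hD : 0 ≤ D) (ha : D ≤ a) (hb : D ≤ b) (hδ0 : 0 ≤ δ)
    (hδ1 : δ ≤ 1) : D ≤ a ^ (1 - δ) * b ^ δ := by
  have h1 : D = D ^ (1 - δ) * D ^ δ := by
    rw [← Real.rpow_add_of_nonneg hD (by linarith) hδ0]
    have : (1 - δ) + δ = 1 := by ring
    rw [this, Real.rpow_one]
  have ha0 : 0 ≤ a := hD.trans ha
  rw [h1]
  exact mul_le_mul (Real.rpow_le_rpow hD ha (by linarith)) (Real.rpow_le_rpow hD hb hδ0)
    (Real.rpow_nonneg hD _) (Real.rpow_nonneg ha0 _)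

theorem dp_nonneg {X : Type} [TopologicalSpace X] {K : ℕ} (C : Coc X K)
    (P : Fin 3 → X → End K) (n : ℕ) (x : X) : 0 ≤ DP C P n x :=
  le_max_of_le_left (by positivity)

/-- from the bound with weights to the bound at a good point -/
theorem hbp {N K r : ℕ} {M : Set (E K)} {m : Measure (E K)} {f f' : E K → E K}
    {P : Fin 3 → E K → End K} {C : Coc M K} {ε : ℝ} (hHB : StmtHB5)
    (hSV : SmoothVolume N K M m) (hf1 : IsDiffeo 1 M f f') (hfm : Preserves M m f)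
    (hPH : PH M f f' P) (hC : Rep C f f') (hε : 0 < ε)
    (hcon : ∀ (h h' : E K → E K) (Q : Fin 3 → E K → End K), IsDiffeo ∞ M h h' →
      Preserves M m h → Small r ε M h → Small r ε M h' → PH M (f ∘ h) (h' ∘ f') Q →
      (∀ x ∈ M, ∀ i, ‖Q i x - P i x‖ ≤ ε) → CInt M m (f ∘ h) Q = 0)
    (c : Chart N K M) (hvol : ∀ A : Set (E N), MeasurableSet A → A ⊆ c.V → m (c.ψ '' A) = volume A)
    {z0 : E N} (hz0 : z0 ∈ c.V) {β σ δ : ℝ} (hβ0 : 0 < β) (hβ1 : β ≤ 1) (hδ0 : 0 < δ)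
    (hδ1 : δ ≤ 1)
    (hDN : ∃ l Cl : ℝ, 0 < l ∧ l < 1 ∧ 1 ≤ Cl ∧ ∀ (k : ℕ) (x : M),
      DP C (fun i (x : M) => P i x) k x ≤ Cl * l ^ k)
    (hDR : ∀ CB : ℝ, 1 ≤ CB → ∃ Cr R1 : ℝ, 1 ≤ Cr ∧ 0 < R1 ∧ R1 ≤ 1 ∧ ∀ R : ℝ, 0 < R → R ≤ R1 →
      ∀ (j : ℕ) (x : M), 1 ≤ j → ‖(x : E K) - c.ψ z0‖ ≤ CB * R →
      ‖(C.f^[j] x : E K) - c.ψ z0‖ ≤ CB * R →
        DP C (fun i (x : M) => P i x) j x ≤ Cr * R ^ σ) :
    HBp M m f P c z0 r ε β (β * (σ * (1 - δ))) := by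
  intro p hp d hqc CB hCB
  obtain ⟨lh, Ah, t1, ρh, r1, hlh0, hlh1, hAh, ht10, ht11, hρh, hr1, hb⟩ := hHB N K r M m f f' P C
    ε hSV hf1 hfm hPH hC hε hcon c hvol p hp d hqc z0 hz0
  obtain ⟨l0, Cl, hl00, hl01, hCl, hdn⟩ := hDN
  obtain ⟨CL, qL, hCL1, hqL, hlip⟩ := phat_lip c hPH.cont hz0
  obtain ⟨D0, hD0⟩ := hqc.isBounded.exists_norm_le
  obtain ⟨DD, hDD⟩ : ∃ DD : ℝ, DD = max 1 D0 := ⟨_, rfl⟩
  have hDD1 : 1 ≤ DD := by rw [hDD]; exact le_max_left _ _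
  have hDs : ∀ s, d.q s ≤ 1 → ‖s‖ ≤ DD := fun s hs =>
    (hD0 s hs).trans ((le_max_right 1 D0).trans hDD.symm.le)
  have hCL0 : 0 ≤ CL := by linarith
  have hCB0 : 0 ≤ CB := by linarith
  obtain ⟨C2, hC2⟩ : ∃ C2 : ℝ, C2 = CL * (1 + CB * DD) := ⟨_, rfl⟩
  have hC21 : 1 ≤ C2 := by
    rw [hC2]
    have h1 : 0 ≤ CB * DD := by positivity
    nlinarith
  obtain ⟨Cr, R1, hCr, hR10, hR11, hdr⟩ := hDR C2 hC21
  have hδ' : 0 ≤ 1 - δ := by linarith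
  obtain ⟨l, hl⟩ : ∃ l : ℝ, l = l0 ^ δ := ⟨_, rfl⟩
  have hl0 : 0 < l := by rw [hl]; positivity
  have hl1 : l < 1 := by
    rw [hl]
    exact Real.rpow_lt_one hl00.le hl01 hδ0
  -- the scale
  have hpos : 0 < min (min r1 R1) (qL / (1 + CB * DD)) :=
    lt_min (lt_min hr1 hR10) (by positivity)
  have ev := (ev_le (show 0 < min 1 (ρh / CB) from lt_min one_pos (by positivity))).and
    (ev_pow hβ0 hpos)
  obtain ⟨ρs, hρs0, hρs⟩ := mem_nhdsGT_iff_exists_Ioc_subset.1 ev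
  refine ⟨l, lh, Ah * (Cr * Cl), 16 * Ah, t1, ρs, hl0, hl1, hlh0, hlh1, by positivity,
    by positivity, ht10, ht11, hρs0, ?_⟩
  intro ρ hρ0 hρ y hy ρ' t κ0 hρρ' hρ'C ht0 ht1 hκ0 hκ1 hs1 hs2 hosc N0
  obtain ⟨⟨-, hρm⟩, hρβ⟩ := hρs ⟨hρ0, hρ⟩
  have hρ1 : ρ ≤ 1 := hρm.trans (min_le_left _ _)
  have hρ2 : ρ * CB ≤ ρh := by
    have := hρm.trans (min_le_right _ _)
    rwa [le_div_iff₀ (by linarith)] at this
  obtain ⟨R, hR⟩ : ∃ R : ℝ, R = ρ ^ β := ⟨_, rfl⟩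
  have hR0 : 0 < R := by rw [hR]; positivity
  have hρβ' : R ≤ min (min r1 R1) (qL / (1 + CB * DD)) := by
    rw [hR]
    exact hρβ
  rw [← hR] at hy
  have hRr : R ≤ r1 := hρβ'.trans ((min_le_left _ _).trans (min_le_left _ _))
  have hRR : R ≤ R1 := hρβ'.trans ((min_le_left _ _).trans (min_le_right _ _))
  have hRq : R * (1 + CB * DD) ≤ qL := by
    have := hρβ'.trans (min_le_right _ _)
    rwa [le_div_iff₀ (by positivity)] at this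
  have hρR : ρ ≤ R := by
    rw [hR]
    have := pow_ge hρ0 hρ1 hβ1
    rwa [Real.rpow_one] at this
  have hρ'0 : 0 < ρ' := lt_of_lt_of_le hρ0 hρρ'
  -- the points of the support are near the good point
  have hz0b : z0 ∈ Metric.closedBall z0 qL := Metric.mem_closedBall_self hqL.le
  have hnear : ∀ x ∈ Bs c d y ρ', ‖x - c.ψ z0‖ ≤ C2 * R := by
    rintro x ⟨s, hs, rfl⟩
    rw [Metric.mem_closedBall, dist_eq_norm] at hy
    have h1 : ‖y + ρ' • s - z0‖ ≤ R * (1 + CB * DD) := by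
      calc ‖y + ρ' • s - z0‖ = ‖(y - z0) + ρ' • s‖ := by congr 1; abel
        _ ≤ ‖y - z0‖ + ‖ρ' • s‖ := norm_add_le _ _
        _ ≤ R + CB * R * DD := by
            rw [norm_smul, Real.norm_of_nonneg hρ'0.le]
            refine add_le_add hy (mul_le_mul (hρ'C.trans ?_) (hDs s hs) (norm_nonneg _)
              (by positivity))
            exact mul_le_mul_of_nonneg_left hρR hCB0
        _ = R * (1 + CB * DD) := by ring
    have h2 : y + ρ' • s ∈ Metric.closedBall z0 qL := by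
      rw [Metric.mem_closedBall, dist_eq_norm]
      exact h1.trans hRq
    refine ((hlip _ h2 z0 hz0b).1).trans ?_
    calc CL * ‖y + ρ' • s - z0‖ ≤ CL * (R * (1 + CB * DD)) := mul_le_mul_of_nonneg_left h1 hCL0
      _ = C2 * R := by rw [hC2]; ring
  -- the weights
  obtain ⟨W, hW⟩ : ∃ W : ℝ, W = Cr * Cl * ρ ^ (β * (σ * (1 - δ))) := ⟨_, rfl⟩
  have hW0 : 0 ≤ W := by rw [hW]; positivity
  have hw : ∀ n < N0, ∀ x : M, (x : E K) ∈ Bs c d y ρ' → f^[n + 1] x ∈ Bs c d y ρ' →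
      DP C (fun i (x : M) => P i x) (n + 1) x ≤ W * l ^ n := by
    intro n _ x hx hx'
    have h1 := hdr R hR0 hRR (n + 1) x (by omega) (hnear _ hx) (by
      rw [hC.iter]
      exact hnear _ hx')
    have h2 := hdn (n + 1) x
    have h3 := interp (dp_nonneg C (fun i (x : M) => P i x) (n + 1) x) h1 h2 hδ0.le hδ1
    refine h3.trans ?_
    have hRσ : 0 ≤ R ^ σ := Real.rpow_nonneg hR0.le _
    rw [Real.mul_rpow (by linarith) hRσ, Real.mul_rpow (by linarith) (by positivity)]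
    have e1 : Cr ^ (1 - δ) ≤ Cr := by
      have := Real.rpow_le_rpow_of_exponent_le hCr (show 1 - δ ≤ 1 by linarith)
      rwa [Real.rpow_one] at this
    have e2 : Cl ^ δ ≤ Cl := by
      have := Real.rpow_le_rpow_of_exponent_le hCl hδ1
      rwa [Real.rpow_one] at this
    have e3 : (R ^ σ) ^ (1 - δ) = ρ ^ (β * (σ * (1 - δ))) := by
      rw [hR, ← Real.rpow_mul hρ0.le, ← Real.rpow_mul hρ0.le]
      congr 1
      ring
    have e4 : (l0 ^ (n + 1)) ^ δ ≤ l ^ n := by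
      have h4 : (l0 ^ (n + 1)) ^ δ = l ^ (n + 1) := by
        rw [hl, ← Real.rpow_natCast, ← Real.rpow_natCast, ← Real.rpow_mul hl00.le,
          ← Real.rpow_mul hl00.le]
        congr 1
        ring
      rw [h4]
      exact pow_le_pow_of_le_one hl0.le hl1.le (Nat.le_succ n)
    rw [e3, hW]
    have p1 : 0 ≤ ρ ^ (β * (σ * (1 - δ))) := by positivity
    have p2 : 0 ≤ Cr ^ (1 - δ) := by positivity
    have p3 : 0 ≤ Cl ^ δ := by positivity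
    calc Cr ^ (1 - δ) * ρ ^ (β * (σ * (1 - δ))) * (Cl ^ δ * (l0 ^ (n + 1)) ^ δ)
        ≤ Cr * ρ ^ (β * (σ * (1 - δ))) * (Cl * l ^ n) := by
          refine mul_le_mul (mul_le_mul_of_nonneg_right e1 p1) (mul_le_mul e2 e4
            (by positivity) (by linarith)) (by positivity) (by positivity)
      _ = Cr * Cl * ρ ^ (β * (σ * (1 - δ))) * l ^ n := by ring
  have hyr : y ∈ Metric.closedBall z0 r1 := Metric.closedBall_subset_closedBall hRr hy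
  have key := hb y hyr ρ' t κ0 hρ'0 (hρ'C.trans (by linarith)) ht0 ht1 hκ0 hκ1 hs1 hs2 hosc N0
    (fun n => W * l ^ n) (fun n => by positivity) hw
  refine key.trans (mul_le_mul_of_nonneg_left ?_ (by positivity))
  have hsum : ∑ n ∈ Finset.range N0, W * l ^ n *
      (m {x | x ∈ Bs c d y ρ' ∧ f^[n + 1] x ∈ Bs c d y ρ'}).toReal = W *
      ∑ n ∈ Finset.range N0, l ^ n *
      (m {x | x ∈ Bs c d y ρ' ∧ f^[n + 1] x ∈ Bs c d y ρ'}).toReal := by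
    rw [Finset.mul_sum]
    exact Finset.sum_congr rfl fun n _ => by ring
  rw [hsum]
  have hsq : (κ0 + t) ^ 2 ≤ 4 := by
    have h1 : κ0 + t ≤ 2 := by linarith
    have h2 : 0 ≤ κ0 + t := by linarith
    nlinarith
  have hm0 : 0 ≤ lh ^ N0 * (m (Bs c d y ρ')).toReal := by positivity
  have h1 : Ah * (κ0 + t) ^ 2 * (4 * (lh ^ N0 * (m (Bs c d y ρ')).toReal)) ≤
      16 * Ah * (lh ^ N0 * (m (Bs c d y ρ')).toReal) := by
    calc Ah * (κ0 + t) ^ 2 * (4 * (lh ^ N0 * (m (Bs c d y ρ')).toReal))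
        = (κ0 + t) ^ 2 * (Ah * (4 * (lh ^ N0 * (m (Bs c d y ρ')).toReal))) := by ring
      _ ≤ 4 * (Ah * (4 * (lh ^ N0 * (m (Bs c d y ρ')).toReal))) :=
          mul_le_mul_of_nonneg_right hsq (by positivity)
      _ = 16 * Ah * (lh ^ N0 * (m (Bs c d y ρ')).toReal) := by ring
  rw [mul_add]
  refine add_le_add (le_of_eq ?_) h1
  rw [hW]
  ring

/-- the numbers -/
theorem nums5 {r α : ℝ} (hr : 2 ≤ r) (hα0 : 0 < α) (hα1 : α ≤ 1) (h : (r - 1) * (1 - α) < 3) :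
    ∃ ε : ℝ, 0 < ε ∧ ε < 1 ∧ 0 < 1 - ε ∧ 1 - ε < 1 ∧
      0 < (1 - ε) * ((2 - 2 * ε - 12 * ε) * (1 - ε)) + (2 - ε) ∧
      0 < 1 + (r - 1) * α - 5 * ε ∧ 1 + (r - 1) * α - 5 * ε ≤ r ∧
      1 + (r - 1) * α - 5 * ε ≤ r - 4 * ε ∧
      1 + (r - 1) * α - 5 * ε ≤ (1 - ε) * (1 - 4 * ε - α) + r * α ∧
      2 * r - 2 < (1 - ε) * ((2 - 2 * ε - 12 * ε) * (1 - ε)) + (2 - ε) +
        2 * (1 + (r - 1) * α - 5 * ε) := by
  obtain ⟨G, hG⟩ : ∃ G : ℝ, G = 3 - (r - 1) * (1 - α) := ⟨_, rfl⟩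
  have hG0 : 0 < G := by rw [hG]; linarith
  have hrα : (r - 1) * α ≤ r - 1 := by nlinarith
  have hrα0 : 0 < (r - 1) * α := mul_pos (by linarith) hα0
  obtain ⟨ε, hε⟩ : ∃ ε : ℝ, ε = min (1 / 100) (G / 30) := ⟨_, rfl⟩
  have hε0 : 0 < ε := by rw [hε]; exact lt_min (by norm_num) (by linarith)
  have hε1 : ε ≤ 1 / 100 := by rw [hε]; exact min_le_left _ _
  have hε2 : ε ≤ G / 30 := by rw [hε]; exact min_le_right _ _
  have e1 : (1 - ε) * ((2 - 2 * ε - 12 * ε) * (1 - ε)) ≥ 2 - 18 * ε := by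
    have h1 : (1 - ε) * ((2 - 2 * ε - 12 * ε) * (1 - ε)) =
      2 - 18 * ε + 28 * ε ^ 2 + ε ^ 2 * (2 - 14 * ε) := by ring
    rw [h1]
    have h2 : 0 ≤ ε ^ 2 * (2 - 14 * ε) := mul_nonneg (by positivity) (by linarith)
    have h3 : 0 ≤ 28 * ε ^ 2 := by positivity
    linarith
  refine ⟨ε, hε0, by linarith, by linarith, by linarith, by linarith, by linarith, by linarith,
    by linarith, ?_, ?_⟩
  · have h1 : (1 - ε) * (1 - 4 * ε - α) + r * α = 1 + (r - 1) * α - 5 * ε +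
      ε * (4 * ε + α) := by ring
    rw [h1]
    have h2 : 0 ≤ ε * (4 * ε + α) := by positivity
    linarith
  · rw [hG] at hε2
    nlinarith

theorem lrp_mono {K : ℕ} {M : Set (E K)} {m : Measure (E K)} {f : E K → E K} {x0 : E K} {N : ℕ}
    {l l2 β θ2 : ℝ} (hl : 0 ≤ l) (hl2 : l ≤ l2) (h : LRp M m f x0 N l2 β θ2) :
    LRp M m f x0 N l β θ2 := by
  intro C2
  obtain ⟨C, ρ0, hC, hρ0, hρ1, hs⟩ := h C2
  refine ⟨C, ρ0, hC, hρ0, hρ1, fun ρ hρ hρ' N0 => le_trans (Finset.sum_le_sum fun n _ => ?_)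
    (hs ρ hρ hρ' N0)⟩
  exact mul_le_mul_of_nonneg_right (pow_le_pow_left₀ hl hl2 n) ENNReal.toReal_nonneg

/-- the fifth theorem for perturbations `f ∘ h` -/
def StmtB05 : Prop := ∀ (N K r : ℕ) (M : Set (E K)) (m : Measure (E K))
  (f f' : E K → E K) (P : Fin 3 → E K → End K), 2 ≤ r →
  SmoothVolume N K M m → IsDiffeo r M f f' → Preserves M m f → PH M f f' P → RankOne M P →
  (r ≤ 4 ∨ ∃ α : ℝ, α ≤ 1 ∧ ((r : ℝ) - 1) * (1 - α) < 3 ∧ HolderAll M P α) →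
  ∀ ε > 0, ∃ (h h' : E K → E K) (Q : Fin 3 → E K → End K),
    IsDiffeo ∞ M h h' ∧ Preserves M m h ∧ Small r ε M h ∧ Small r ε M h' ∧
    PH M (f ∘ h) (h' ∘ f') Q ∧ (∀ x ∈ M, ∀ i, ‖Q i x - P i x‖ ≤ ε) ∧
    ¬ ∀ᵐ x ∂m, CentralZero M (f ∘ h) (h' ∘ f') Q x

/-- the fifth theorem -/
def StmtFinalB5 : Prop := ∀ (N K r : ℕ) (s : WithTop ℕ∞) (M : Set (E K))
  (m : Measure (E K)) (f f' : E K → E K) (P : Fin 3 → E K → End K), 2 ≤ r →
  (r : WithTop ℕ∞) ≤ s → s ≤ ∞ →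
  SmoothVolume N K M m → IsDiffeo s M f f' → Preserves M m f → PH M f f' P → RankOne M P →
  (r ≤ 4 ∨ ∃ α : ℝ, α ≤ 1 ∧ ((r : ℝ) - 1) * (1 - α) < 3 ∧ HolderAll M P α) →
  ∀ (ι : Type) [Finite ι] (c : ι → Chart N K M) (L : ι → Set (E N)),
  (∀ i, IsCompact (L i) ∧ L i ⊆ (c i).V) → ∀ ε > 0,
  ∃ (g g' : E K → E K) (Q : Fin 3 → E K → End K),
    IsDiffeo s M g g' ∧ Preserves M m g ∧ CrClose r ε c L f g ∧
    PH M g g' Q ∧ (∀ x ∈ M, ∀ i, ‖Q i x - P i x‖ ≤ ε) ∧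
    ¬ ∀ᵐ x ∂m, CentralZero M g g' Q x

theorem mainB05 (hHB5 : StmtHB5) (hT1 : StmtT1) (hTL : StmtTL) (hTA : StmtTA) (hTE : StmtTE)
    (hGA2 : StmtGA2) (hAR : StmtAR5) (hSC : StmtSC5) (hAV : StmtAV) (hF1 : StmtF1)
    (hF4 : StmtF4) (hRT : StmtRT) (hBL : StmtBL) (hBS : StmtBS) (hMX : StmtMX)
    (hCI : StmtCI) (hNM : StmtNM) (hPW : StmtPW) (hLP : StmtLP) (hMS : StmtMS) (hT4 : StmtT4)
    (hT5 : StmtT5) (hSW : StmtSW) (hE1 : StmtE1) (hLN : StmtLN) (hLZ : StmtLZ) (hDN : StmtDN)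
    (hHA : StmtHA) (hAL : StmtAL) (hLR5 : StmtLR5) (hOS5 : StmtOS5) (hNR5 : StmtNR5)
    (hDN5 : StmtDN5) (hDR5 : StmtDR5) : StmtB05 := by
  intro N K r M m f f' P hr hSV hf hfm hPH hrk hreg ε hε
  by_contra hcon
  push Not at hcon
  have hr2 : (2 : ℝ) ≤ r := by exact_mod_cast hr
  have hf1 : IsDiffeo 1 M f f' := hf.of_le' (by exact_mod_cast (by omega : 1 ≤ r))
  have hf2 : IsDiffeo 2 M f f' := hf.of_le' (by exact_mod_cast hr)
  have hPi : ContinuousOn (Pi M) M :=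
    (((hPH.cont 0).add (hPH.cont 1)).add (hPH.cont 2)).congr fun x hx => (hPH.sum x hx).symm
  have hcM : CompactSpace M := isCompact_iff_compactSpace.1 hSV.compact
  obtain ⟨C, hC⟩ := hT4 K M f f' hPi hf1
  obtain ⟨-, -, -, hto, -⟩ := hT5 K M f f' C hf1 hC
  obtain ⟨hspl, n, hdom⟩ := hto P hPH
  have hLin := lin_of hLN hLZ hSV hf2 hC
  obtain ⟨hMSd, -⟩ := hMS N K M m hSV
  have hSid : Small r ε M (id : E K → E K) :=
    ⟨fun _ => 0, contDiff_const, fun x _ => by simp, fun k _ x => by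
      simpa using hε.le⟩
  have hmid : Preserves M m (id : E K → E K) := by
    intro A hA
    rw [preimage_id]
    exact measure_inter_conull hSV.null
  -- the exponents of `f` vanish
  have hz : ∀ᵐ x ∂m, CentralZero M f f' P x :=
    hcon id id P (IsDiffeo.id' ∞ M) hmid hSid hSid hPH
      (fun x _ i => by rw [sub_self, norm_zero]; exact hε.le)
  -- Hölder exponent
  obtain ⟨α, Cα, hα0, hα1, hαr, hHol⟩ : ∃ α Cα : ℝ, 0 < α ∧ α ≤ 1 ∧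
      ((r : ℝ) - 1) * (1 - α) < 3 ∧ ∀ (i : Fin 3) (x y : M),
      ‖P i x - P i y‖ ≤ Cα * ‖(x : E K) - y‖ ^ α := by
    by_cases h4 : r ≤ 4
    · obtain ⟨α, Cα, h1, h1', hH⟩ := holder_all hDN hPW hLP hHA hAL hSV.compact hLin hspl hdom
      refine ⟨α, Cα, h1, h1', ?_, hH⟩
      have h5 : (r : ℝ) ≤ 4 := by exact_mod_cast h4
      nlinarith
    · rcases hreg with h2 | ⟨α, hα1, hα, Cα, hH⟩
      · exact absurd h2 h4
      · have h5 : (5 : ℝ) ≤ r := by exact_mod_cast (by omega : 5 ≤ r)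
        refine ⟨α, Cα, ?_, hα1, hα, fun i x y => hH x x.2 y y.2 i⟩
        by_contra h0
        push Not at h0
        nlinarith
  obtain ⟨ε', he0, he1, hβ0, hβ1, n1, n2, n3, n4, n5, n6⟩ := nums5 hr2 hα0 hα1 hαr
  -- the almost everywhere properties
  have hae : ∀ᵐ x0 ∂m, (∀ k : ℕ, LRp M m f x0 N (1 - 1 / (k + 2)) (1 - ε') (2 - ε')) ∧
      Nrp f f' x0 := by
    refine Filter.Eventually.and (ae_all_iff.2 fun k => ?_) (hNR5 N K M m f f' P hSV hf2 hfm hPH)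
    have hk : (0 : ℝ) ≤ k := Nat.cast_nonneg k
    have h1 : 1 / ((k : ℝ) + 2) < 1 := by
      rw [div_lt_one (by linarith)]
      linarith
    have h2 : 0 < 1 / ((k : ℝ) + 2) := by positivity
    exact hLR5 N K M m f f' P hSV hf2 hfm hPH hrk _ ε' (1 - ε') (by linarith) (by linarith) he0
      hβ0
  obtain ⟨k, D, a, b, cc, C0, Λ, C', x0, hk1, g, hLRx, hNrx⟩ := gp5 hRT hBL hBS hMX hCI hNM hPW
    hMS hT4 hT5 hSW hSV hf1 hfm hPH hC hspl hdom hrk hz _ hae ε' he0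
  have hLD : Lin D := hLP K M hSV.compact C D (k * n) g.pow hLin
  -- the chart
  obtain ⟨c, hx0W, hvol⟩ := hSV.chart x0 x0.2
  have hz0 : c.φ x0 ∈ c.V := c.mapsφ x0 ⟨x0.2, hx0W⟩
  have hψ : c.ψ (c.φ x0) = x0 := c.right x0 ⟨x0.2, hx0W⟩
  have hcon' : ∀ (h h' : E K → E K) (Q : Fin 3 → E K → End K), IsDiffeo ∞ M h h' →
      Preserves M m h → Small r ε M h → Small r ε M h' → PH M (f ∘ h) (h' ∘ f') Q →
      (∀ x ∈ M, ∀ i, ‖Q i x - P i x‖ ≤ ε) → CInt M m (f ∘ h) Q = 0 := by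
    intro h h' Q hh hhm hs hs' hQ hQc
    have hh1 : IsDiffeo 1 M h h' := hh.of_le' (by exact_mod_cast le_top)
    exact cint_zero hE1 hMS hT4 hT5 hSV (hf1.comp' hh1) ((hMSd f f' hf1 hfm).2 h h' hh1 hhm)
      hQ (hcon h h' Q hh hhm hs hs' hQ hQc)
  have hHB : HBp M m f P c (c.φ x0) r ε (1 - ε')
      ((1 - ε') * ((2 - 2 * ε' - 12 * ε') * (1 - ε'))) :=
    hbp hHB5 hSV hf1 hfm hPH hC hε hcon' c hvol hz0 hβ0 hβ1.le he0 he1.le
      (hDN5 M K C _ n hspl hdom) (fun CB hCB => by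
        obtain ⟨Cr, R1, q1, q2, q3, q4⟩ := hDR5 K M hSV.compact C D (fun i (x : M) => P i x) n k
          f f' a b cc C0 Λ ε' C' ε' CB x0 hspl hdom hLin hLD hC hk1 g he0 hNrx he0 he1 hCB
        refine ⟨Cr, R1, q1, q2, q3, ?_⟩
        rw [hψ]
        exact q4)
  refine core5 (f' := f') hT1 hTL hTA hTE hGA2 hAR hSC hAV hF1 hF4 hr hSV hf1 hPH c hvol (c.φ x0) hz0
    (θ2 := 2 - ε') (θ3 := 1 + ((r : ℝ) - 1) * α - 5 * ε') hε hβ0 hβ1 n1 n2 n3 n6 hHB ?_ ?_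
  · intro l hl0 hl1
    rw [hψ]
    obtain ⟨k, hk⟩ := exists_nat_gt (1 / (1 - l))
    refine lrp_mono hl0.le ?_ (hLRx k)
    have hl' : 0 < 1 - l := by linarith
    rw [div_lt_iff₀ hl'] at hk
    have h1 : 1 / ((k : ℝ) + 2) ≤ 1 - l := by
      rw [div_le_iff₀ (by positivity)]
      nlinarith
    linarith
  · intro CB hCB
    rw [hψ]
    exact hOS5 K M hSV.compact D P a b cc C0 Λ ε' C' α Cα (1 - ε') _ CB r hr g.spl hLD g.rates
      g.hC0 g.hΛ g.ha g.hb he0 g.big hα0 hα1 hHol hβ0 hβ1.le n4 n5 hCB x0 g.fwd g.bwd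

theorem mainB5 (hB0 : StmtB05) (hT4 : StmtT4) (hT5 : StmtT5) (hSW : StmtSW) (hMS : StmtMS)
    (hCR : StmtCR) : StmtFinalB5 := by
  intro N K r s M m f f' P hr hrs hs hSV hfs hfm hPH hrk hreg ι _ c L hL ε hε
  have hf : IsDiffeo r M f f' := hfs.of_le' hrs
  have hf1 : IsDiffeo 1 M f f' := hf.of_le' (by exact_mod_cast (by omega : 1 ≤ r))
  obtain ⟨hMSd, -⟩ := hMS N K M m hSV
  obtain ⟨hfm', -⟩ := hMSd f f' hf1 hfm
  obtain ⟨P0, hP0, hPH0⟩ := ph_inv hT4 hT5 hSW hf1 hPH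
  obtain ⟨ε', hε', hcr⟩ := hCR N K r M f hf.smooth ι c L hL ε hε
  have hrk' : RankOne M P0 := fun x hx => by
    rw [hP0 0 x hx, hP0 2 x hx]
    exact ⟨(hrk x hx).2, (hrk x hx).1⟩
  have hreg' : r ≤ 4 ∨ ∃ α : ℝ, α ≤ 1 ∧ ((r : ℝ) - 1) * (1 - α) < 3 ∧ HolderAll M P0 α := by
    rcases hreg with h2 | ⟨α, hα1, hα, Cα, hH⟩
    · exact Or.inl h2
    · refine Or.inr ⟨α, hα1, hα, Cα, fun x hx y hy i => ?_⟩
      rw [hP0 i x hx, hP0 i y hy]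
      exact hH x hx y hy _
  obtain ⟨h, h', Q, hh, hhm, -, hs', hQPH, hQc, hnot⟩ := hB0 N K r M m f' f P0 hr hSV
    hf.symm hfm' hPH0 hrk' hreg' (min ε ε') (lt_min hε hε')
  have hhs : IsDiffeo s M h h' := hh.of_le' hs
  have hh1 : IsDiffeo 1 M h h' := hh.of_le' (by exact_mod_cast le_top)
  have hg : IsDiffeo s M (h' ∘ f) (f' ∘ h) := hhs.symm.comp' hfs
  have hg1 : IsDiffeo 1 M (h' ∘ f) (f' ∘ h) := hh1.symm.comp' hf1
  obtain ⟨Q1, hQ1, hPH1⟩ := ph_inv hT4 hT5 hSW hg1.symm hQPH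
  obtain ⟨w, hw1, hw2, hw3⟩ := hs'
  refine ⟨h' ∘ f, f' ∘ h, Q1, hg, ?_, ?_, hPH1, ?_, ?_⟩
  · exact (hMSd h' h hh1.symm (hMSd h h' hh1 hhm).1).2 f f' hf1 hfm
  · exact hcr w hw1 (fun k hk x => (hw3 k hk x).trans (min_le_right _ _)) (h' ∘ f)
      fun x hx => hw2 (f x) (hf.maps hx)
  · intro x hx i
    have h1 := (hQc x hx (2 - i)).trans (min_le_left ε ε')
    rw [hP0 _ x hx, two_sub] at h1
    rw [hQ1 i x hx]
    exact h1
  · intro hae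
    apply hnot
    have hMae : ∀ᵐ x ∂m, x ∈ M := by
      rw [ae_iff]
      exact hSV.null
    filter_upwards [hae, hMae] with x hx hxM v hv hv0
    have h1 : Q1 1 x v = v := by
      rw [hQ1 1 x hxM]
      exact hv
    exact (hx v h1 hv0).symm

end Pool.Agent.Helper30.RZ
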