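import Pool.Agent.Helper30.RZ.Fin5B
import Pool.Agent.Helper56.RZ.FinD5
import Pool.Agent.Helper56.RZ.FinZ3
import Pool.Agent.Helper7.RZ.LR5
import Pool.Agent.Helper13.RZ.DN5
import Pool.Agent.Helper16.RZ.VB5
import Pool.Agent.Helper23.RZ.EN5
import Pool.Agent.Helper24.RZ.AR5
import Pool.Agent.Helper32.RZ.BC5
import Pool.Agent.Helper38.RZ.TR5
import Pool.Agent.Helper51.RZ.OD5
import Pool.Agent.Helper58.RZ.DR5
import Pool.Agent.Helper62.RZ.NR5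
import Pool.Agent.Helper78.RZ.RS5
import Pool.Agent.Helper89.RZ.OS5
import Pool.Agent.Helper90.RZ.SC5

/-!
# Project RZ5: everything except the homological bound with weights
-/

set_option autoImplicit false

open Set Filter Topology MeasureTheory

open scoped ContDiff

namespace Pool.Agent.Helper30.RZ

open Pool.Agent.Helper56.RZ

/-- the homological bound with weights -/
theorem shb5 : StmtHB5 := by
  have hJ1 := Pool.Agent.Helper55.RZ.j1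
  have hJ2 := Pool.Agent.Helper55.RZ.j2
  have hJ3 := j3 hJ2
  have hAN := Pool.Agent.Helper95.RZ.an
  have hGTA := Pool.Agent.Helper82.RZ.gta
  have hGTB := Pool.Agent.Helper49.RZ.gtb
  have hPP := Pool.Agent.Helper77.RZ.pp hAN hGTA hGTB
  have hB1 := Pool.Agent.Helper93.RZ.b1 hPP Pool.Agent.Helper41.RZ.qp
  have hA1 := Pool.Agent.Helper64.RZ.a1
  have hCL := Pool.Agent.Helper39.RZ.cl
  have hCS := Pool.Agent.Helper39.RZ.cs
  have hB2 := Pool.Agent.Helper33.RZ.b2 hA1 hB1 hCL hCS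
  have hDP := Pool.Agent.Helper70.RZ.dp
  have hLI := Pool.Agent.Helper53.RZ.li
  have hE2 := Pool.Agent.Helper73.RZ.e2 hJ1 hJ2 hJ3
  have hE3 := Pool.Agent.Helper3.RZ.e3 hE2 hJ1 hJ2 hJ3
  have hLD := Pool.Agent.Helper36.RZ.ld
  have hF1 := Pool.Agent.Helper34.RZ.f1
  have hT2 := Pool.Agent.Helper57.RZ.t2
  have hT1 := Pool.Agent.Helper57.RZ.t1
  have hT3 := Pool.Agent.Helper57.RZ.t3 hT2
  have hT4 := Pool.Agent.Helper57.RZ.t4 hT2 hT3
  have hT5 := Pool.Agent.Helper55.RZ.t5 hT2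
  have hMS := Pool.Agent.Helper35.RZ.ms
  have hINT := Pool.Agent.Helper64.RZ.int
  have hTL := Pool.Agent.Helper86.RZ.tl
  have hTA := Pool.Agent.Helper13.RZ.ta
  have hTV := Pool.Agent.Helper29.RZ.tv hTA
  have hTE := Pool.Agent.Helper37.RZ.te hTA
  have hGA1 := Pool.Agent.Helper54.RZ.ga1 hTA hF1 hT1 hT2
  have hGA2 := Pool.Agent.Helper28.RZ.ga2 hTA hF1
  have hGA3 := Pool.Agent.Helper85.RZ.ga3 hTA hTV hF1
  have hGA5 := Pool.Agent.Helper79.RZ.ga5 hGA1 hGA2 hT2 hT4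
  have hLC := Pool.Agent.Helper87.RZ.lc Pool.Agent.Helper25.RZ.dt hLD
  intro N K r M m f f' P C ε hSV hf1 hfm hPH hC hε hcon c hvol p hp d hqc z0 hz0
  exact hb5 hB2 hDP hCL hLI hE3 hT1 hT4 hT5 hMS hINT hTL hTA hTE hGA1 hGA2 hGA3 hGA5 hLC
    Pool.Agent.Helper15.RZ.tf Pool.Agent.Helper14.RZ.ob Pool.Agent.Helper38.RZ.tr5
    Pool.Agent.Helper78.RZ.rs5 hSV hf1 hfm hPH hC hε hcon c hvol hp d hqc z0 hz0

theorem all5 (hHB5 : StmtHB5) : StmtFinalB5 := by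
  have hJ1 := Pool.Agent.Helper55.RZ.j1
  have hJ2 := Pool.Agent.Helper55.RZ.j2
  have hJ3 := j3 hJ2
  have hE1 := Pool.Agent.Helper50.RZ.e1 hJ1 hJ2 hJ3
  have hLD := Pool.Agent.Helper36.RZ.ld
  have hF1 := Pool.Agent.Helper34.RZ.f1
  have hF4 := Pool.Agent.Helper34.RZ.f4 hF1
  have hT2 := Pool.Agent.Helper57.RZ.t2
  have hT1 := Pool.Agent.Helper57.RZ.t1
  have hT3 := Pool.Agent.Helper57.RZ.t3 hT2
  have hT4 := Pool.Agent.Helper57.RZ.t4 hT2 hT3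
  have hT5 := Pool.Agent.Helper55.RZ.t5 hT2
  have hSW := Pool.Agent.Helper53.RZ.sw
  have hMS := Pool.Agent.Helper35.RZ.ms
  have hCR := Pool.Agent.Helper1.RZ.cr
  have hDN := Pool.Agent.Helper39.RZ.dn
  have hLP := Pool.Agent.Helper16.RZ.lp
  have hPW := Pool.Agent.Helper89.RZ.pw
  have hLN := Pool.Agent.Helper65.RZ.ln hT1
  have hLZ := Pool.Agent.Helper49.RZ.lz
  have hRC := Pool.Agent.Helper18.RZ.rc
  have hBA := Pool.Agent.Helper74.RZ.ba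
  have hDV := Pool.Agent.Helper79.RZ.dv hT1
  have hUC := Pool.Agent.Helper3.RZ.uc
  have hNM := Pool.Agent.Helper41.RZ.nm hT1 hT2
  have hAL := Pool.Agent.Helper69.RZ.al
  have hRG := Pool.Agent.Helper54.RZ.rg hRC Pool.Agent.Helper50.RZ.od
  have hTL := Pool.Agent.Helper86.RZ.tl
  have hTA := Pool.Agent.Helper13.RZ.ta
  have hTV := Pool.Agent.Helper29.RZ.tv hTA
  have hTE := Pool.Agent.Helper37.RZ.te hTA
  have hGA2 := Pool.Agent.Helper28.RZ.ga2 hTA hF1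
  have hSM := Pool.Agent.Helper49.RZ.sm
  have hSF := Pool.Agent.Helper89.RZ.sf hTL hTA hTV hTE hSM hF1
  have hSK := Pool.Agent.Helper57.RZ.sk hTA hTE hTL
  have hGM := Pool.Agent.Helper70.RZ.gm hTA hTL hTE hF1 hF4 hLD
  have hAV := Pool.Agent.Helper23.RZ.av hSF Pool.Agent.Helper36.RZ.gt Pool.Agent.Helper49.RZ.cb
    hSK hGM hF1 hF4
  have hRTA := rta hT4 hT5 hSW hMS hLN hLZ hLP hPW hDN Pool.Agent.Helper85.RZ.pg gf2F prF
  have hRTB := rtb hRTA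
  have hDN5 := Pool.Agent.Helper13.RZ.dn5 hDN
  have hLR5 := Pool.Agent.Helper7.RZ.lr5 Pool.Agent.Helper32.RZ.bc5 Pool.Agent.Helper16.RZ.vb5
    hRTB hNM
  have hNR5 := Pool.Agent.Helper62.RZ.nr5 hRTA hNM hMS
  have hOS5 := Pool.Agent.Helper89.RZ.os5 hRG hAL
  have hEN5 := Pool.Agent.Helper23.RZ.en5 Pool.Agent.Helper51.RZ.od5
  have hDR5 := Pool.Agent.Helper58.RZ.dr5 hEN5 hDN5 hPW
  have hB0 : StmtB05 := mainB05 hHB5 hT1 hTL hTA hTE hGA2 (Pool.Agent.Helper24.RZ.ar5 hF1)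
    Pool.Agent.Helper90.RZ.sc5 hAV hF1 hF4 (Pool.Agent.Helper47.RZ.rt hDN)
    (Pool.Agent.Helper70.RZ.bl hT1 hT5 hMS hUC hDV hBA) Pool.Agent.Helper12.RZ.bs
    Pool.Agent.Helper36.RZ.mx Pool.Agent.Helper86.RZ.ci hNM
    hPW hLP hMS hT4 hT5 hSW hE1 hLN hLZ hDN
    (Pool.Agent.Helper96.RZ.ha hRC) hAL hLR5 hOS5 hNR5 hDN5 hDR5
  exact mainB5 hB0 hT4 hT5 hSW hMS hCR

theorem final5 : StmtFinalB5 := all5 shb5

/-- the fifth theorem in terms of the definitions of `Statement.lean` -/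
theorem finB5 : ∀ (N K r : ℕ) (s : WithTop ℕ∞) (M : Set (E K))
    (m : Measure (E K)) (f f' : E K → E K) (P : Fin 3 → E K → End K), 2 ≤ r →
    (r : WithTop ℕ∞) ≤ s → s ≤ ∞ → ConsPH N K s M m f f' P → (N = 3 ∨ OneDimStrong M P) →
    (r ≤ 4 ∨ ∃ α : ℝ, α ≤ 1 ∧ ((r : ℝ) - 1) * (1 - α) < 3 ∧ HolderOn M P α) →
    Approximable (N := N) r s M m f P (fun g g' Q => ¬ AllZero M m g g' Q) := by
  intro N K r s M m f f' P hr hrs hs h hrk hreg ι _ c L hL ε hε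
  have h1 : RankOne M P := by
    rcases hrk with h3 | h4
    · subst h3
      exact rank_three Pool.Agent.Helper57.RZ.t1 h.manifold.sv h.hyp.ph
    · exact h4
  obtain ⟨g, g', Q, h1, h2, h3, h4, h5, h7⟩ := final5 N K r s M m f f' P hr hrs hs
    h.manifold.sv h.diffeo h.preserves h.hyp.ph h1 hreg ι c L hL ε hε
  exact ⟨g, g', Q, ⟨h.manifold, h1, h2, h4.ph⟩, h3, h5, h7⟩

end Pool.Agent.Helper30.RZ
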